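import Pool.Agent.R702.KH.Main

/-!
# MP_30cf1a_an: `k(n) = 2`

For every `n ≥ 4` there is an `n`-dimensional real normed space with a hyperplane of relative
projection constant `2 - 2/n` (an extremal space) all of whose subspaces `Z` with
`3 ≤ dim Z ≤ n - 1` satisfy `λ(Z, X) > 1`. So no `k ∈ {3, …, n-1}` has the property defining
`k(n)`.
-/

namespace Pool.Agent.Results.MP_30cf1a_an.KnEqTwo

/-- `N` is a norm on `ℝⁿ` (definiteness, triangle inequality, homogeneity). -/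
def IsNorm {n : ℕ} (N : (Fin n → ℝ) → ℝ) : Prop :=
  (∀ x, N x = 0 → x = 0) ∧ (∀ x y, N (x + y) ≤ N x + N y) ∧ ∀ (c : ℝ) x, N (c • x) = |c| * N x

/-- `P` is a linear projection of `ℝⁿ` onto `Y`. -/
def IsProj {n : ℕ} (P : (Fin n → ℝ) →ₗ[ℝ] (Fin n → ℝ)) (Y : Submodule ℝ (Fin n → ℝ)) : Prop :=
  (∀ x, P x ∈ Y) ∧ ∀ y ∈ Y, P y = y

/-- The relative projection constant `λ(Y, X)` of `Y` in `X = (ℝⁿ, N)`: the infimum of the numbers
`C` such that some projection `P` onto `Y` satisfies `N (P x) ≤ C N x` for all `x`. -/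
noncomputable def relProj {n : ℕ} (N : (Fin n → ℝ) → ℝ) (Y : Submodule ℝ (Fin n → ℝ)) : ℝ :=
  sInf {C : ℝ | ∃ P, IsProj P Y ∧ ∀ x, N (P x) ≤ C * N x}

/-- `(ℝⁿ, N)` is an extremal space: it has an `(n-1)`-dimensional subspace with relative
projection constant `2 - 2/n`. -/
def Extremal {n : ℕ} (N : (Fin n → ℝ) → ℝ) : Prop :=
  IsNorm N ∧ ∃ Y : Submodule ℝ (Fin n → ℝ),
    Module.finrank ℝ Y = n - 1 ∧ relProj N Y = 2 - 2 / (n : ℝ)

/-- the exponents -/
noncomputable def ee (n : ℕ) : Fin n → ℝ := fun i => ((i : ℕ) + 1 : ℝ) / (2 * (n : ℝ) ^ 2)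

lemma par (n : ℕ) (hn : 4 ≤ n) : R243KH.Par (ee n) (2 * n / (2 * n + 1)) (1 / 2) := by
  have hn4 : (4:ℝ) ≤ n := by exact_mod_cast hn
  have hn0 : (0:ℝ) < n := by linarith
  refine ⟨fun i => ?_, fun i j hij => ?_, by positivity, by norm_num, ⟨1 / (2 * n), fun i => ?_, ?_, ?_⟩,
    ?_, hn, ?_⟩
  · unfold ee; positivity
  · unfold ee at hij
    have h1 : ((i : ℕ) + 1 : ℝ) = (j : ℕ) + 1 := by
      have h2 : (2 * (n : ℝ) ^ 2) ≠ 0 := by positivity
      field_simp at hij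
      linarith
    have h2 : (i : ℕ) = (j : ℕ) := by
      have : ((i : ℕ) : ℝ) = (j : ℕ) := by linarith
      exact_mod_cast this
    exact Fin.ext h2
  · unfold ee
    have h1 : ((i : ℕ) + 1 : ℝ) ≤ n := by
      have := i.2
      exact_mod_cast this
    rw [div_le_div_iff₀ (by positivity) (by positivity)]
    nlinarith
  · rw [div_le_div_iff₀ (by positivity) (by positivity)]
    linarith
  · have : 2 * (n:ℝ) / (2 * n + 1) * (1 + 1 / (2 * n)) = 1 := by
      field_simp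
    rw [this]; norm_num
  · have : 2 * (n:ℝ) / (2 * n + 1) ≤ 1 := by
      rw [div_le_one (by positivity)]; linarith
    linarith
  · have : 2 * (n:ℝ) / (2 * n + 1) = 1 - 1 / (2 * n + 1) := by
      field_simp; ring
    rw [this]; linarith

/-- For every `n ≥ 4` some extremal `n`-dimensional space has `λ(Z, X) > 1` for all subspaces `Z`
with `3 ≤ dim Z ≤ n - 1`; hence no `k` with `3 ≤ k ≤ n - 1` is such that every extremal
`n`-dimensional space has a `1`-complemented `k`-dimensional subspace. -/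
theorem result (n : ℕ) (hn : 4 ≤ n) :
    (∃ N : (Fin n → ℝ) → ℝ, Extremal N ∧ ∀ Z : Submodule ℝ (Fin n → ℝ),
      3 ≤ Module.finrank ℝ Z → Module.finrank ℝ Z ≤ n - 1 → 1 < relProj N Z) ∧
    ∀ k, 3 ≤ k → k ≤ n - 1 → ¬ ∀ N : (Fin n → ℝ) → ℝ, Extremal N →
      ∃ Z : Submodule ℝ (Fin n → ℝ), Module.finrank ℝ Z = k ∧ relProj N Z = 1 := by
  have main : ∃ N : (Fin n → ℝ) → ℝ, Extremal N ∧ ∀ Z : Submodule ℝ (Fin n → ℝ),
      3 ≤ Module.finrank ℝ Z → Module.finrank ℝ Z ≤ n - 1 → 1 < relProj N Z := by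
    have hp := par n hn
    refine ⟨R243KH.NN (ee n) (2 * n / (2 * n + 1)) (1 / 2), ⟨R243KH.NN_isNorm hp,
      LinearMap.ker (R243KH.tt n), R243KH.finrank_ker_tt (by omega),
      (R243KH.NN_btw hp).relProj_eq (by omega)⟩, fun Z h3 hk => ?_⟩
    refine (R243KH.NN_btw hp).one_lt ?_
    rintro ⟨P, hP, hc⟩
    exact R243KH.Sit.false (e := ee n) (l₁ := 2 * n / (2 * n + 1)) (l₂ := 1 / 2) (Z := Z) (P := P)
      ⟨hp, hP, hc, h3⟩ hk
  refine ⟨main, fun k h3 hk hall => ?_⟩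
  obtain ⟨N, hN, hZ⟩ := main
  obtain ⟨Z, h1, h2⟩ := hall N hN
  have := hZ Z (by omega) (by omega)
  rw [h2] at this
  exact lt_irrefl _ this

end Pool.Agent.Results.MP_30cf1a_an.KnEqTwo
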